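import Pool.Agent.W206.YP.Stm

/-! Assembly: from the gates to the pointwise form (part SA). -/

set_option autoImplicit false
set_option linter.unusedSectionVars false

namespace Pool.Agent.W479.YP.SA

open MvPolynomial UpperHalfPlane H294ZP Pool.Agent.W206.CT Pool.Agent.W206.YP

section map

variable {ι E : Type} [Fintype ι] {D : ℕ} {r : E → ℕ} {R R' : Type} [CommRing R] [CommRing R']

theorem xb_map (ψ : R →+* R') (w lam : ι → R) (μ : R) (b : Bs ι) :
    ψ (xb w lam μ b) = xb (fun i => ψ (w i)) (fun i => ψ (lam i)) (ψ μ) b := by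
  rcases b with _ | i | i
  · rfl
  · rfl
  · exact map_add ψ _ _

theorem mo_map (ψ : R →+* R') (w lam : ι → R) (μ : R) (e : Ex ι D) :
    ψ (mo w lam μ e) = mo (fun i => ψ (w i)) (fun i => ψ (lam i)) (ψ μ) e := by
  unfold mo
  rw [map_mul, map_prod]
  congr 1
  refine Finset.prod_congr rfl fun b _ => ?_
  rw [map_pow, xb_map]

theorem tm_map (ψ : R →+* R') (ε : ∀ l, Fin (r l) → ℤ) (M : ∀ l, Fin (r l) → Ex ι D)
    (w lam : ι → R) (μ : R) (l : E) (j : Fin (r l)) :
    ψ (tm ε M w lam μ l j) = tm ε M (fun i => ψ (w i)) (fun i => ψ (lam i)) (ψ μ) l j := by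
  unfold tm
  rw [map_mul, map_intCast, mo_map]

theorem val_map (ψ : R →+* R') (ε : ∀ l, Fin (r l) → ℤ) (M : ∀ l, Fin (r l) → Ex ι D)
    (w lam : ι → R) (μ : R) (nu : E → R) (v : Nd ι E D r) :
    ψ (val ε M w lam μ nu v) =
      val ε M (fun i => ψ (w i)) (fun i => ψ (lam i)) (ψ μ) (fun l => ψ (nu l)) v := by
  rcases v with i | (i | i) | e | ⟨l, j⟩
  · rfl
  · rfl
  · exact map_add ψ _ _
  · exact mo_map ψ w lam μ e
  · change ψ (nu l + psum (tm ε M w lam μ l) j) = ψ (nu l) + psum _ j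
    rw [map_add]
    congr 1
    have h := psum_map ψ.toAddMonoidHom (tm ε M w lam μ l) j
    refine h.trans ?_
    congr 1
    funext i
    exact tm_map ψ ε M w lam μ l i

end map

section phi

variable {ι T : Type} (K : IntermediateField Qb ℂ) (w : ι → K) (t : T → ℂ)

/-- evaluation -/
noncomputable def phi : MvPolynomial T (MvPolynomial ι Qb) →ₐ[Qb] ℂ :=
  ((aeval t : MvPolynomial T K →ₐ[K] ℂ).restrictScalars Qb).comp
    (MvPolynomial.mapAlgHom (aeval w))

theorem phi_apply (N : MvPolynomial T (MvPolynomial ι Qb)) :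
    phi K w t N = aeval t (MvPolynomial.map (aeval w : MvPolynomial ι Qb →ₐ[Qb] K).toRingHom N) := by
  rfl

theorem phi_X (s : T) : phi K w t (X s) = t s := by
  rw [phi_apply]; simp

theorem aeval_K (p : MvPolynomial ι Qb) :
    ((aeval w p : K) : ℂ) = aeval (fun i => (w i : ℂ)) p :=
  (MvPolynomial.aeval_algebraMap_apply ℂ w p).symm

theorem phi_C (p : MvPolynomial ι Qb) : phi K w t (C p) = aeval (fun i => (w i : ℂ)) p := by
  rw [phi_apply, MvPolynomial.map_C, aeval_C, ← aeval_K]; rfl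

theorem phi_eq_zero_iff (ht : AlgebraicIndependent K t)
    (N : MvPolynomial T (MvPolynomial ι Qb)) :
    phi K w t N = 0 ↔ ∀ α, aeval (fun i => (w i : ℂ)) (coeff α N) = 0 := by
  rw [phi_apply]
  have h1 : Function.Injective (aeval t : MvPolynomial T K →ₐ[K] ℂ) := ht
  rw [map_eq_zero_iff _ h1, MvPolynomial.ext_iff]
  refine forall_congr' fun α => ?_
  rw [coeff_map, coeff_zero, ← aeval_K]
  exact ⟨fun h => congrArg Subtype.val h, fun h => Subtype.ext h⟩

end phi

section gen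

variable {ι E : Type} [Fintype ι] [Fintype E] [DecidableEq ι] [DecidableEq E] {D : ℕ} {r : E → ℕ}
  (ε : ∀ l, Fin (r l) → ℤ) (M : ∀ l, Fin (r l) → Ex ι D)

/-- the generic values -/
noncomputable def gval (v : Nd ι E D r) : MvPolynomial (Option ι ⊕ E) (MvPolynomial ι Qb) :=
  val ε M (fun i => C (X i)) (fun i => X (Sum.inl (some i))) (X (Sum.inl none))
    (fun l => X (Sum.inr l)) v

/-- the generic relations -/
noncomputable def gtm (l : E) (j : Fin (r l)) : MvPolynomial (Option ι ⊕ E) (MvPolynomial ι Qb) :=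
  tm ε M (fun i => C (X i)) (fun i => X (Sum.inl (some i))) (X (Sum.inl none)) l j

/-- the field generated by `w` -/
noncomputable abbrev KK (w : ι → ℂ) : IntermediateField Qb ℂ := IntermediateField.adjoin Qb (Set.range w)

/-- the point in this field -/
noncomputable def wK (w : ι → ℂ) (i : ι) : KK w := ⟨w i, IntermediateField.subset_adjoin Qb _ ⟨i, rfl⟩⟩

/-- the parameters -/
def par (lam : ι → ℂ) (μ : ℂ) (nu : E → ℂ) : Option ι ⊕ E → ℂ :=
  Sum.elim (fun o : Option ι => o.elim μ lam) nu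

theorem phi_gval (w lam : ι → ℂ) (μ : ℂ) (nu : E → ℂ) (v : Nd ι E D r) :
    phi (KK w) (wK w) (par lam μ nu) (gval ε M v) = val ε M w lam μ nu v := by
  let ψ : MvPolynomial (Option ι ⊕ E) (MvPolynomial ι Qb) →+* ℂ :=
    (phi (KK w) (wK w) (par lam μ nu)).toRingHom
  have h := val_map (R := MvPolynomial (Option ι ⊕ E) (MvPolynomial ι Qb)) (R' := ℂ) ψ ε M
    (fun i => C (X i)) (fun i => X (Sum.inl (some i))) (X (Sum.inl none)) (fun l => X (Sum.inr l)) v
  refine h.trans ?_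
  have h1 : (fun i => ψ
      (C (X i) : MvPolynomial (Option ι ⊕ E) (MvPolynomial ι Qb))) = w := by
    funext i
    change phi (KK w) (wK w) (par lam μ nu) (C (X i)) = w i
    rw [phi_C, aeval_X]; rfl
  have h2 : (fun i => ψ
      (X (Sum.inl (some i)) : MvPolynomial (Option ι ⊕ E) (MvPolynomial ι Qb))) = lam := by
    funext i
    change phi (KK w) (wK w) (par lam μ nu) (X (Sum.inl (some i))) = lam i
    rw [phi_X]; rfl
  have h3 : ψ
      (X (Sum.inl none) : MvPolynomial (Option ι ⊕ E) (MvPolynomial ι Qb)) = μ := by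
    change phi (KK w) (wK w) (par lam μ nu) (X (Sum.inl none)) = μ
    rw [phi_X]; rfl
  have h4 : (fun l => ψ
      (X (Sum.inr l) : MvPolynomial (Option ι ⊕ E) (MvPolynomial ι Qb))) = nu := by
    funext l
    change phi (KK w) (wK w) (par lam μ nu) (X (Sum.inr l)) = nu l
    rw [phi_X]; rfl
  rw [h1, h2, h3, h4]

theorem phi_gtm (w lam : ι → ℂ) (μ : ℂ) (nu : E → ℂ) (l : E) (j : Fin (r l)) :
    phi (KK w) (wK w) (par lam μ nu) (gtm ε M l j) = tm ε M w lam μ l j := by
  let ψ : MvPolynomial (Option ι ⊕ E) (MvPolynomial ι Qb) →+* ℂ :=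
    (phi (KK w) (wK w) (par lam μ nu)).toRingHom
  have h := tm_map (R := MvPolynomial (Option ι ⊕ E) (MvPolynomial ι Qb)) (R' := ℂ) ψ ε M
    (fun i => C (X i)) (fun i => X (Sum.inl (some i))) (X (Sum.inl none)) l j
  refine h.trans ?_
  have h1 : (fun i => ψ
      (C (X i) : MvPolynomial (Option ι ⊕ E) (MvPolynomial ι Qb))) = w := by
    funext i
    change phi (KK w) (wK w) (par lam μ nu) (C (X i)) = w i
    rw [phi_C, aeval_X]; rfl
  have h2 : (fun i => ψ
      (X (Sum.inl (some i)) : MvPolynomial (Option ι ⊕ E) (MvPolynomial ι Qb))) = lam := by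
    funext i
    change phi (KK w) (wK w) (par lam μ nu) (X (Sum.inl (some i))) = lam i
    rw [phi_X]; rfl
  have h3 : ψ
      (X (Sum.inl none) : MvPolynomial (Option ι ⊕ E) (MvPolynomial ι Qb)) = μ := by
    change phi (KK w) (wK w) (par lam μ nu) (X (Sum.inl none)) = μ
    rw [phi_X]; rfl
  rw [h1, h2, h3]

theorem phi_aeval {S : Type} (w lam : ι → ℂ) (μ : ℂ) (nu : E → ℂ) (n : S → Nd ι E D r)
    (g : MvPolynomial S Qb) :
    phi (KK w) (wK w) (par lam μ nu) (aeval (fun p => gval ε M (n p)) g) =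
      aeval (fun p => val ε M w lam μ nu (n p)) g := by
  have h : ((phi (KK w) (wK w) (par lam μ nu)).comp
      (aeval (fun p => gval ε M (n p)) : MvPolynomial S Qb →ₐ[Qb] _)) =
      aeval (fun p => val ε M w lam μ nu (n p)) := by
    apply MvPolynomial.algHom_ext
    intro p
    rw [AlgHom.comp_apply, aeval_X, aeval_X, phi_gval]
  exact DFunLike.congr_fun h g

/-- the nodes `w_i` occur once -/
theorem nd_inl (p : Gt ι E D r × Fin 3) (i : ι) (h : nd ε M p = Sum.inl i) :
    p = (Sum.inl i, 0) := by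
  obtain ⟨g, k⟩ := p
  rcases g with i' | e | ⟨l, j⟩
  · fin_cases k
    · have h1 : (Sum.inl i' : Nd ι E D r) = Sum.inl i := h
      rw [Sum.inl.inj h1]; rfl
    · exact absurd (show (Sum.inr (Sum.inl (Sum.inl i')) : Nd ι E D r) = Sum.inl i from h) (by simp)
    · exact absurd (show (Sum.inr (Sum.inl (Sum.inr i')) : Nd ι E D r) = Sum.inl i from h) (by simp)
  · fin_cases k
    · exact absurd (show (mn (pre e) : Nd ι E D r) = Sum.inl i from h) (by simp [mn])
    · have h1 : (nb (ch e) : Nd ι E D r) = Sum.inl i := h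
      exfalso
      rcases hc : ch e with _ | i' | i'
      · rw [hc] at h1; simp [nb] at h1
      · rw [hc] at h1; simp [nb] at h1
      · rw [hc] at h1; simp [nb] at h1
    · exact absurd (show (mn e.1 : Nd ι E D r) = Sum.inl i from h) (by simp [mn])
  · fin_cases k
    · have h1 : (if ε l j = 1 then ps l j else ps l (nx j) : Nd ι E D r) = Sum.inl i := h
      exfalso
      split_ifs at h1 <;> simp [ps] at h1
    · exact absurd (show (mn (M l j) : Nd ι E D r) = Sum.inl i from h) (by simp [mn])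
    · have h1 : (if ε l j = 1 then ps l (nx j) else ps l j : Nd ι E D r) = Sum.inl i := h
      exfalso
      split_ifs at h1 <;> simp [ps] at h1

end gen

theorem core (hL1 : Pool.Agent.W206.YP.S_L1) (hTRC : S_TRC) (hCMA : S_CMA) (hNI : S_NI) (hALG : S_ALG) (hEQV : S_EQV)
    (hPN : S_PN) (hYG : S_YG) (hYL : S_YL) (hYN : S_YN) (hIND : S_IND) (hSW : S_SW)
    (hFin : ∀ (G : Type) [Fintype G] (κ : G → Bool), FinQ G κ)
    {ι E : Type} [Fintype ι] [Fintype E] [DecidableEq ι] [DecidableEq E] {D : ℕ} {r : E → ℕ}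
    (ε : ∀ l, Fin (r l) → ℤ) (M : ∀ l, Fin (r l) → Ex ι D)
    (w : ι → ℂ) (hw : ∀ i, ¬ CMv (w i)) (hiso : ∀ i j, i ≠ j → ¬ Iso (w i) (w j))
    (d : ℕ) (hd : ∀ m, TrGe Qb w m ↔ m ≤ d)
    (lam : ι → ℂ) (μ : ℂ) (nu : E → ℂ) (el : E → ι) (hcard : Fintype.card E + d = Fintype.card ι)
    (hsys : IsSys w D r ε M lam μ nu el) :
    ∃ f : MvPolynomial ι Qb, aeval w f ≠ 0 ∧
      ∀ w' : ι → ℂ, (∀ g : MvPolynomial ι Qb, aeval w g = 0 → aeval w' g = 0) →
        ∀ (m m' : ℕ) (T : Finset ι), ¬ TrGe Qb w m → TrGe Qb w' m' → RelT w' T →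
          m ≤ m' + T.card → aeval w' f = 0 := by
  obtain ⟨hD, hel, hε, hxb, hind, hrel, hsupp, hgrad, hinj⟩ := hsys
  obtain ⟨hn1, hn2, hn3⟩ := hYN hNI hCMA hALG hEQV ι E D r ε M w lam μ nu (KK w)
    (fun i => (wK w i).2) hind hw hiso hinj
  have hr : ∀ l, 0 < r l := by
    intro l
    by_contra h
    have h0 : r l = 0 := by omega
    apply hgrad l
    refine Finset.sum_eq_zero fun j _ => ?_
    exact absurd j.isLt (by omega)
  have hgate := hYG ι E D r ε M w lam μ nu hε hrel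
  have hlin := hYL ι E D r ε M w lam μ nu el hel hε hxb hsupp hgrad
  have hnot := hL1 hTRC hCMA (Gt ι E D r) (Nd ι E D r) kd (nd ε M) (val ε M w lam μ nu) hn1 hn2
    (fun p p' hpp hnd => hn3 _ (fun i hi => hpp (by
      rw [nd_inl ε M p i hi, nd_inl ε M p' i (hnd ▸ hi)]))) hgate hlin
  obtain ⟨S, hS1, hS2⟩ := hFin (Gt ι E D r) kd
  have hg : ∀ p : S, ∃ g ∈ p.1, aeval (fun p => val ε M w lam μ nu (nd ε M p)) g ≠ 0 := by
    rintro ⟨p, hp⟩
    obtain ⟨L'', i1, i2, ω', hω', rfl⟩ := hS1 p hp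
    have := hnot L'' ω' hω'
    push Not at this
    obtain ⟨g, hg1, hg2⟩ := this
    exact ⟨g, hg1, hg2⟩
  choose g hg1 hg2 using hg
  set N : MvPolynomial (Option ι ⊕ E) (MvPolynomial ι Qb) :=
    aeval (fun p => gval ε M (nd ε M p)) (∏ p, g p) with hN
  have h1 : phi (KK w) (wK w) (par lam μ nu) N ≠ 0 := by
    rw [hN, phi_aeval, map_prod]
    exact Finset.prod_ne_zero_iff.mpr fun p _ => hg2 p
  have hwK : ∀ w : ι → ℂ, (fun i => ((wK w i : KK w) : ℂ)) = w := fun w => rfl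
  rw [Ne, phi_eq_zero_iff (KK w) (wK w) (par lam μ nu) hind, hwK] at h1
  push Not at h1
  obtain ⟨α, hα⟩ := h1
  refine ⟨coeff α N, hα, ?_⟩
  intro w' hsp m m' T hm hm' hT hmm
  obtain ⟨t, ht⟩ := hIND.2 (KK w') (hIND.1 _ (Set.countable_range w')) (Option ι ⊕ E)
  have hpar : par (fun i => t (Sum.inl (some i))) (t (Sum.inl none)) (fun l => t (Sum.inr l)) = t := by
    funext s
    rcases s with (_ | i) | l <;> rfl
  have hrel' : ∀ l, ∑ j, tm ε M w' (fun i => t (Sum.inl (some i))) (t (Sum.inl none)) l j = 0 := by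
    intro l
    have h2 : phi (KK w) (wK w) (par lam μ nu) (∑ j, gtm ε M l j) = 0 := by
      rw [map_sum, ← hrel l]
      exact Finset.sum_congr rfl fun j _ => phi_gtm ε M w lam μ nu l j
    rw [phi_eq_zero_iff (KK w) (wK w) (par lam μ nu) hind, hwK] at h2
    have h3 : phi (KK w') (wK w') t (∑ j, gtm ε M l j) = 0 := by
      rw [phi_eq_zero_iff (KK w') (wK w') t ht, hwK]
      exact fun α => hsp _ (h2 α)
    rw [map_sum, ← hpar] at h3
    rw [← h3]
    exact Finset.sum_congr rfl fun j _ => (phi_gtm ε M w' _ _ _ l j).symm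
  have hat := hSW hEQV hPN hYG ι E D r ε M w' (fun i => t (Sum.inl (some i))) (t (Sum.inl none))
    (fun l => t (Sum.inr l)) d m' T hD hr hε hrel' (by
      change AlgebraicIndependent (KK w') (par (fun i => t (Sum.inl (some i))) (t (Sum.inl none))
        (fun l => t (Sum.inr l)))
      rw [hpar]; exact ht) hcard hm' hT (by
      have h5 : ¬ m ≤ d := fun h => hm ((hd m).mpr h)
      omega)
  obtain ⟨p, hp, hple⟩ := hS2 ℂ _ hat
  have h6 : phi (KK w') (wK w') t N = 0 := by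
    rw [← hpar, hN, phi_aeval, map_prod]
    exact Finset.prod_eq_zero (Finset.mem_univ (⟨p, hp⟩ : S)) (hple (hg1 ⟨p, hp⟩))
  rw [phi_eq_zero_iff (KK w') (wK w') t ht, hwK] at h6
  exact h6 α

theorem main : S_SA := by
  intro hL1 hTRC hCMA hNI hALG hEQV hPN hYG hYL hYN hIND hLI hCO hSY hSW hFin ι _ w hw hiso
  classical
  have hw0 : ∀ i, w i ≠ 0 := by
    intro i hi
    apply hw i
    rw [hi]; exact hCMA.2
  obtain ⟨I, -, -, hI⟩ := hCO Qb ℂ ι w
  obtain ⟨E, hE, D, r, ε, M, lam, μ, nu, el, hcard, hsys⟩ := hSY hLI hCO hIND ι w I.card hw0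
    ((hI _).2 le_rfl) (fun h => by have := (hI _).1 h; omega)
  exact core hL1 hTRC hCMA hNI hALG hEQV hPN hYG hYL hYN hIND hSW hFin ε M w hw hiso I.card hI
    lam μ nu el hcard hsys

end Pool.Agent.W479.YP.SA
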